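import Pool.Agent.Q261.L6.FracM

/-!
# Montgomery's conjecture on Weyl sums for almost all leading coefficients in a fractal set

The sixth power maximal bound on intervals of length `N^(2-k)` (MP_3b0be2_nt, ShortArcs) is uniform in the interval;
so the exceptional leading coefficients are rare inside every set of given box dimension, and for every Frostman
measure on such a set.
-/

set_option autoImplicit false

open MeasureTheory

namespace Pool.Agent.Results.MP_3b0be2_nt.FractalLeadingCoefficients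

/-- `K` has upper box dimension at most `β`: for every `δ > 0` it is covered by `O(M^(β+δ))` intervals of length
`1/M`, for all `M ≥ 1`. -/
def BoxDimLe (K : Set ℝ) (β : ℝ) : Prop := ∀ δ : ℝ, 0 < δ → ∃ A : ℝ, 0 < A ∧ ∀ M : ℕ, 1 ≤ M →
  ∃ S : Finset ℝ, (S.card : ℝ) ≤ A * (M : ℝ) ^ (β + δ) ∧ K ⊆ ⋃ x ∈ S, Set.Icc x (x + 1 / (M : ℝ))

/-- The inequality of `H_k(η)` with `ε` and the constant `C`, at the leading coefficient `t`: for all `N ≥ 2`, all
real `ξ` and all coprime `1 ≤ a < q ≤ N` with `|t - a/q| ≤ 1/q^2`. -/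
def Holds (k : ℕ) (η ε C t : ℝ) : Prop :=
  ∀ N : ℕ, 2 ≤ N → ∀ ξ : ℝ, ∀ a q : ℕ, 1 ≤ a → a < q → q ≤ N → Nat.Coprime a q →
    |t - (a : ℝ) / (q : ℝ)| ≤ 1 / (q : ℝ) ^ 2 →
    ‖∑ n ∈ Finset.Icc 1 N, Complex.exp (2 * (Real.pi : ℂ) * Complex.I *
        (((t * (n : ℝ) ^ k + ξ * (n : ℝ)) : ℝ) : ℂ))‖ ≤ C * (N : ℝ) ^ (1 + ε) *
      (1 / (q : ℝ) + 1 / (N : ℝ) + (q : ℝ) / (N : ℝ) ^ k) ^ η

/-- **(1)** Let `k ≥ 2`, `0 ≤ η ≤ 1`, `ε > 0`, and let `K` be a set of reals of upper box dimension at most `β`. The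
set of the `t` in `K` at which the inequality of `H_k(η)` with this `ε` holds for no constant `C` has Hausdorff
dimension at most `((k-2) β + max(6,k) (η - ε)) / k`.

**(2)** Let `k ≥ 2`, `0 ≤ η ≤ 1`, `s > 0` and `max(6,k) η ≤ 2 s`. For every measure `μ` on the line, carried by a
set `K` of upper box dimension at most `s`, such that `μ(I) ≤ C₀ |I|^s` for all intervals `I` of length at most 1:
for `μ`-almost every `t` the inequality of `H_k(η)` holds at `t` for every `ε > 0`, with some constant `C`. -/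
theorem result :
    (∀ k : ℕ, 2 ≤ k → ∀ η ε β : ℝ, 0 ≤ η → η ≤ 1 → 0 < ε → 0 ≤ β → ∀ K : Set ℝ, BoxDimLe K β →
      dimH {t : ℝ | t ∈ K ∧ ¬ ∃ C : ℝ, Holds k η ε C t} ≤
        ENNReal.ofReal (((k - 2) * β + max 6 (k : ℝ) * (η - ε)) / k)) ∧
    (∀ k : ℕ, 2 ≤ k → ∀ η s C₀ : ℝ, 0 ≤ η → η ≤ 1 → 0 < s → max 6 (k : ℝ) * η ≤ 2 * s →
      ∀ K : Set ℝ, BoxDimLe K s → ∀ μ : Measure ℝ, μ Kᶜ = 0 →
      (∀ x r : ℝ, 0 ≤ r → r ≤ 1 → μ (Set.Icc x (x + r)) ≤ ENNReal.ofReal (C₀ * r ^ s)) →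
      ∀ᵐ t ∂μ, ∀ ε : ℝ, 0 < ε → ∃ C : ℝ, Holds k η ε C t) := by
  refine ⟨?_, ?_⟩
  · intro k hk η ε β hη hη1 hε hβ K hK
    exact Pool.Agent.Q261.L6.dim_fractal hk hη hη1 hε hβ hK
  · intro k hk η s C₀ hη hη1 hs hks K hK μ hμK hμ
    exact Pool.Agent.Q261.L6.ae_fractal hk hη hη1 hs hks hK hμK hμ

end Pool.Agent.Results.MP_3b0be2_nt.FractalLeadingCoefficients
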