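import Pool.Agent.Q261.L6.WeylA

/-!
# Weyl sums on short arcs: the sixth power maximal bound

`L^6` decoupling for convex sequences (proved in the helper files), applied to the dyadic blocks of the Weyl sum on
intervals of length `N^(2-k)` in the leading coefficient, bounds the measure of the set of leading coefficients at
which the sum is large for some linear coefficient, in every interval of this length and for arbitrary bounded
coefficients. This gives Montgomery's inequality off a small set in every arc.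
-/

set_option autoImplicit false

open MeasureTheory

namespace Pool.Agent.Results.MP_3b0be2_nt.ShortArcs

/-- **(1)** For `k ≥ 2` and `ε > 0` there is `C` such that for all `N ≥ 1`, all complex `c n` with `|c n| ≤ 1`, all
real `x` and all `V > 0`, the set of `t` in `[x, x + N^(2-k)]` such that `|∑_{n ≤ N} c n e(t n^k + ξ n)| ≥ V` for
at least one real `ξ` has measure at most `C N^ε max(N^(6-k) / V^6, 1 / V^k)`.

**(2)** For `k ≥ 2` and `ε > 0` there is `C` such that for all `N ≥ 1`, all `c n` with `|c n| ≤ 1`, all `q ≥ 1`, all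
real `x` (for instance `x = a/q`) and all `η ≥ 0`, the set of `t` with `|t - x| ≤ 1/q^2` such that
`|∑_{n ≤ N} c n e(t n^k + ξ n)| > N^(1+ε) (1/q + 1/N + q/N^k)^η` for at least one real `ξ` has measure at most
`C (1/q^2 + 1/N^(k-2)) (q^(6η) + q^(kη)) / N^(2+ε)`. -/
theorem result :
    (∀ k : ℕ, 2 ≤ k → ∀ ε : ℝ, 0 < ε → ∃ C : ℝ, 0 < C ∧ ∀ N : ℕ, 1 ≤ N →
      ∀ c : ℕ → ℂ, (∀ n, ‖c n‖ ≤ 1) → ∀ x V : ℝ, 0 < V →
      volume {t : ℝ | t ∈ Set.Icc x (x + 1 / (N : ℝ) ^ (k - 2)) ∧ ∃ ξ : ℝ,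
        V ≤ ‖∑ n ∈ Finset.Icc 1 N, c n * Complex.exp (2 * (Real.pi : ℂ) * Complex.I *
          (((t * (n : ℝ) ^ k + ξ * (n : ℝ)) : ℝ) : ℂ))‖} ≤
      ENNReal.ofReal (C * (N : ℝ) ^ ε * max ((N : ℝ) ^ (6 - (k : ℝ)) / V ^ 6) (1 / V ^ k))) ∧
    (∀ k : ℕ, 2 ≤ k → ∀ ε : ℝ, 0 < ε → ∃ C : ℝ, 0 < C ∧ ∀ N : ℕ, 1 ≤ N →
      ∀ c : ℕ → ℂ, (∀ n, ‖c n‖ ≤ 1) → ∀ q : ℕ, 1 ≤ q → ∀ x η : ℝ, 0 ≤ η →
      volume {t : ℝ | |t - x| ≤ 1 / (q : ℝ) ^ 2 ∧ ∃ ξ : ℝ,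
        (N : ℝ) ^ (1 + ε) * (1 / (q : ℝ) + 1 / (N : ℝ) + (q : ℝ) / (N : ℝ) ^ k) ^ η <
          ‖∑ n ∈ Finset.Icc 1 N, c n * Complex.exp (2 * (Real.pi : ℂ) * Complex.I *
            (((t * (n : ℝ) ^ k + ξ * (n : ℝ)) : ℝ) : ℂ))‖} ≤
      ENNReal.ofReal (C * (1 / (q : ℝ) ^ 2 + 1 / (N : ℝ) ^ (k - 2)) *
        (((q : ℝ) ^ (6 * η) + (q : ℝ) ^ (k * η)) / (N : ℝ) ^ (2 + ε)))) := by
  refine ⟨?_, ?_⟩
  · intro k hk ε hε
    obtain ⟨C, hC, h⟩ := Pool.Agent.Q261.L6.weyl_measure hk hε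
    refine ⟨C, by linarith, fun N hN c hc x V hV => ?_⟩
    simp only [← Pool.Agent.Q261.L6.WS_eq]
    exact h N hN c hc x V hV
  · intro k hk ε hε
    obtain ⟨C, hC, h⟩ := Pool.Agent.Q261.L6.weyl_arc hk hε
    refine ⟨C, hC, fun N hN c hc q hq x η hη => ?_⟩
    simp only [← Pool.Agent.Q261.L6.WS_eq]
    exact h N hN c hc q hq x η hη

end Pool.Agent.Results.MP_3b0be2_nt.ShortArcs
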