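import Pool.Agent.Q255.L2.Eng
import Pool.Agent.Q275.L2.Shp
import Pool.Agent.Results.MP_b6b996_nt.PriceOfTheExponent

/-!
# Square root cancellation in all short intervals for all joint laws of small information

Let `f` be completely multiplicative with the values `1`, `-1` at the primes. The signs at the primes may have any
joint law whatsoever; `I(x)` is the relative entropy (Kullback-Leibler divergence) of the law of the signs
`f(p)`, `p ≤ x`, to independent fair signs. Suppose that `I(x) ≤ x^{o(1)}`. Then almost surely, also after any change of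
`f` at finitely many primes:

1. `∑ w(m) f(m) = O(2^{εJ} ‖w‖)` for all functions `w` of given sets `W_J` of at most `exp(A(J+1))` functions which vanish
beyond `2^J`, where `‖w‖² = ∑_s (∑_r |w(r² s)|)²`, `s` squarefree (the variance for fair signs if `w ≥ 0`);
2. for given `|a| ≤ 1`, `∑_{M < n ≤ R} a(n) f(n) e(F(n)) = O(R^ε √(R - M))` for all `M ≤ R` and all real polynomials `F` of
bounded degree at once.

3. For every `0 < δ < 1` there is a law with `I(x) = O(x^δ)` for which 2 fails almost surely (`a = μ`).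
-/

set_option autoImplicit false

namespace Pool.Agent.Results.MP_3b0be2_nt.ShortIntervalsSmallInfo

open Finset Filter Topology MeasureTheory

/-- the sign at the prime with the number `k` (`2` has the number `0`) -/
def sign (ω : ℕ → Bool) (k : ℕ) : ℝ := if ω k then 1 else -1

/-- `f(n) = ∏_p f(p)^{v_p(n)}`, the completely multiplicative function with the sign `ω k` at the prime with the
number `k` (`Nat.count Nat.Prime p` is the number of the primes less than `p`) -/
noncomputable def f (ω : ℕ → Bool) (n : ℕ) : ℝ :=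
  n.factorization.prod fun p j => sign ω (Nat.count Nat.Prime p) ^ j

/-- `I(x)`: the relative entropy `∑_s q(s) log (2^n q(s))` of the law `q` of the signs at the `n = π(x)` primes
`p ≤ x` to independent fair signs, in nats -/
noncomputable def information (ν : Measure (ℕ → Bool)) (x : ℕ) : ℝ :=
  ∑ s : Fin (Nat.primeCounting x) → Bool, ν.real {ω | ∀ k : Fin (Nat.primeCounting x), ω k = s k} *
    Real.log (2 ^ Nat.primeCounting x *
      ν.real {ω | ∀ k : Fin (Nat.primeCounting x), ω k = s k})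

/-- `I(x) ≤ x^{o(1)}` -/
def SmallInformation (ν : Measure (ℕ → Bool)) : Prop :=
  ∀ ε : ℝ, 0 < ε → ∀ᶠ x : ℕ in atTop, information ν x ≤ (x : ℝ) ^ ε

/-- the Moebius function -/
noncomputable def moeb (n : ℕ) : ℝ := ((ArithmeticFunction.moebius n : ℤ) : ℝ)

/-- `e(x) = exp(2 π i x)` -/
noncomputable def e (x : ℝ) : ℂ := Complex.exp ((2 * Real.pi * x : ℝ) * Complex.I)

/-- `∑_{s ≤ X squarefree} (∑_{r ≤ X} |w(r² s)|)²` -/
noncomputable def normSq (X : ℕ) (w : ℕ → ℝ) : ℝ :=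
  ∑ s ∈ (Finset.Icc 1 X).filter Squarefree, (∑ r ∈ Finset.Icc 1 X, |w (r ^ 2 * s)|) ^ 2

/-- cancellation to the norm, up to the factor `2^{εJ}`, for all weights `w` in the sets `W_J` -/
def AllWeights (g : ℕ → ℝ) (W : ℕ → Finset (ℕ → ℝ)) : Prop :=
  ∀ ε : ℝ, 0 < ε → ∃ C : ℝ, ∀ J, ∀ w ∈ W J,
    |∑ m ∈ Finset.Icc 1 (2 ^ J), w m * g m| ≤ C * (2 : ℝ) ^ (ε * J) * √(normSq (2 ^ J) w)

/-- square root cancellation in all intervals `(M, R]` for the weights `a` and all polynomial phases of bounded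
degree -/
def AllShortIntervals (g a : ℕ → ℝ) : Prop :=
  ∀ (d : ℕ) (ε : ℝ), 0 < ε → ∃ C : ℝ, ∀ (M R : ℕ) (F : Polynomial ℝ), M ≤ R → 1 ≤ R → F.natDegree ≤ d →
    ‖∑ n ∈ Finset.Ioc M R, ((a n * g n : ℝ) : ℂ) * e (F.eval (n : ℝ))‖ ≤
      C * (R : ℝ) ^ ε * √((R : ℝ) - M)

/-! ## Translation -/

open Pool.Agent.Q255.EP

theorem info_eq (ν : Measure (ℕ → Bool)) [IsProbabilityMeasure ν] (x : ℕ) :
    information ν x = Pool.Agent.Q255.IR.D ν (Nat.primeCounting x) := D_eq_sum ν _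

theorem small_iff (ν : Measure (ℕ → Bool)) [IsProbabilityMeasure ν] :
    SmallInformation ν ↔ ∀ ε : ℝ, 0 < ε → ∀ᶠ x : ℕ in atTop,
      Pool.Agent.Q255.IR.D ν (Nat.primeCounting x) ≤ (x : ℝ) ^ ε := by
  unfold SmallInformation
  simp only [info_eq]

theorem weights (ν : Measure (ℕ → Bool)) [IsProbabilityMeasure ν] (hν : SmallInformation ν)
    (W : ℕ → Finset (ℕ → ℝ)) (A : ℝ) (h2 : ∀ J, ∀ w ∈ W J, ∀ m, 2 ^ J < m → w m = 0)
    (h3 : ∀ J, ((W J).card : ℝ) ≤ Real.exp (A * ((J : ℝ) + 1))) :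
    ∀ᵐ ω ∂ν, ∀ ω' : ℕ → Bool, {k | ω' k ≠ ω k}.Finite → AllWeights (f ω') W := by
  refine Pool.Agent.Q255.L2.ae_fin0 (fun ν' _ hν' => ?_) ν ((small_iff ν).1 hν)
  filter_upwards [Pool.Agent.Q255.L2.t_ENG2 ν' 0 le_rfl zero_le_one
    (fun ε hε => by simpa using hν' ε hε) W A h2 h3] with ω hω ε hε
  obtain ⟨C, hC⟩ := hω ε hε
  refine ⟨C, fun J w hw => ?_⟩
  have := hC J w hw
  rw [zero_add] at this
  exact this

theorem phases (ν : Measure (ℕ → Bool)) [IsProbabilityMeasure ν] (hν : SmallInformation ν)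
    (a : ℕ → ℝ) (ha : ∀ n, |a n| ≤ 1) :
    ∀ᵐ ω ∂ν, ∀ ω' : ℕ → Bool, {k | ω' k ≠ ω k}.Finite → AllShortIntervals (f ω') a :=
  Pool.Agent.Q255.L2.ae_fin0
    (fun ν' _ hν' => Pool.Agent.Q275.L2.shp Pool.Agent.Q255.L2.t_ENG2 ν' hν' a ha) ν ((small_iff ν).1 hν)

theorem not_of_theta {ω : ℕ → Bool} {δ : ℝ} (hδ : 0 < δ)
    (h : MP_b6b996_nt.PriceOfTheExponent.theta
      (fun n => MP_b6b996_nt.PriceOfTheExponent.moeb n * MP_b6b996_nt.PriceOfTheExponent.f ω n) =
        (1 + δ) / 2) : ¬ AllShortIntervals (f ω) moeb := by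
  intro hA
  obtain ⟨C, hC⟩ := hA 1 (δ / 4) (by positivity)
  have h1 : MP_b6b996_nt.PriceOfTheExponent.theta
      (fun n => MP_b6b996_nt.PriceOfTheExponent.moeb n * MP_b6b996_nt.PriceOfTheExponent.f ω n) ≤
        1 / 2 + δ / 4 := by
    refine csInf_le (MP_b6b996_nt.PriceOfTheExponent.theta_bdd _)
      ⟨by positivity, C, fun R hR x => ?_⟩
    refine MP_b6b996_nt.PriceOfTheExponent.lin
      (g := fun n => MP_b6b996_nt.PriceOfTheExponent.moeb n * MP_b6b996_nt.PriceOfTheExponent.f ω n)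
      (fun F hF => ?_) x
    have h2 := hC 0 R F (Nat.zero_le _) hR hF
    have h3 : (Finset.Ioc 0 R) = Finset.Icc 1 R := by
      ext n
      simp only [Finset.mem_Ioc, Finset.mem_Icc]
      omega
    have hRp : (0 : ℝ) < R := by exact_mod_cast hR
    rw [h3, Nat.cast_zero, sub_zero, mul_assoc, Real.sqrt_eq_rpow, ← Real.rpow_add hRp,
      show δ / 4 + 1 / 2 = 1 / 2 + δ / 4 by ring] at h2
    exact h2
  rw [h] at h1
  linarith

/-- **Square root cancellation in all short intervals for all joint laws of small information.**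

1. `I(x) ≤ x^{o(1)}`: almost surely, for every `f'` equal to `f` at all but finitely many primes, cancellation to the norm
for all weights of a given family, and square root cancellation in all intervals for all polynomial phases.
2. For every `0 < δ < 1` there is a law with `I(x) ≤ C x^δ` for which almost surely the second assertion fails for all
these `f'` and the weights `μ`. -/
theorem result :
    (∀ (ν : Measure (ℕ → Bool)) [IsProbabilityMeasure ν], SmallInformation ν →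
      (∀ (W : ℕ → Finset (ℕ → ℝ)) (A : ℝ), (∀ J, ∀ w ∈ W J, ∀ m, 2 ^ J < m → w m = 0) →
        (∀ J, ((W J).card : ℝ) ≤ Real.exp (A * ((J : ℝ) + 1))) →
        ∀ᵐ ω ∂ν, ∀ ω' : ℕ → Bool, {k | ω' k ≠ ω k}.Finite → AllWeights (f ω') W) ∧
      (∀ a : ℕ → ℝ, (∀ n, |a n| ≤ 1) →
        ∀ᵐ ω ∂ν, ∀ ω' : ℕ → Bool, {k | ω' k ≠ ω k}.Finite → AllShortIntervals (f ω') a)) ∧
    (∀ δ : ℝ, 0 < δ → δ < 1 → ∃ ν : Measure (ℕ → Bool), IsProbabilityMeasure ν ∧
      (∃ C : ℝ, ∀ x : ℕ, 1 ≤ x → information ν x ≤ C * (x : ℝ) ^ δ) ∧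
      ∀ᵐ ω ∂ν, ∀ ω' : ℕ → Bool, {k | ω' k ≠ ω k}.Finite → ¬ AllShortIntervals (f ω') moeb) := by
  refine ⟨fun ν _ hν => ⟨fun W A h2 h3 => weights ν hν W A h2 h3, fun a ha => phases ν hν a ha⟩,
    fun δ h0 h1 => ?_⟩
  obtain ⟨ν, hν, hI, h⟩ := MP_b6b996_nt.PriceOfTheExponent.result.2 δ h0.le h1
  refine ⟨ν, hν, hI, ?_⟩
  filter_upwards [h] with ω hω ω' hω'
  exact not_of_theta h0 (hω ω' hω')

end Pool.Agent.Results.MP_3b0be2_nt.ShortIntervalsSmallInfo
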