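import Mathlib
import Pool.Agent.Q84.MB.F4
import Pool.Agent.Results.MP_3b0be2_nt.AlmostAllPrimeModuli

/-!
# Montgomery's bound modulo all primes of a string, for many coefficient sequences at once

Let `k ≥ 2`, `0 ≤ η ≤ 1/4` and `ε, κ > 0`. For every `m` there is a `c > 0` and for every `Z` a number `D` with the
following property. For every large `X` there is a set `S` of at most `(log X) ^ (49 / 50)` primes, all larger than `Z`,
such that for EVERY function `s` with values `1` and `-1` on the primes and EVERY set `A` of at most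
`X ^ (1 - 2η - κ)` complex sequences bounded by `1` at least `X ^ (1 - κ)` integers `r`, `X < r ≤ 3X`, satisfy: the
interval `[r, r + D]` contains at least `m` primes, and for every prime `q` in it

* the Legendre symbol `(q / l)` is `s l` for all odd primes `l ≤ c log X` outside `S`;
* `|∑_{u<n≤v} a_n e(f(n)/q + ξ n)| ≤ N ^ (1 + ε) q ^ (-η)` for ALL `a` in `A`, ALL integral polynomials `f` of degree
  at most `k` which are not linear modulo `q`, ALL integers `N ≥ q ^ (1 + 2η)`, all `u` and `v ≤ N` and all real `ξ`.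

For `k ≥ 4` (part (2)): for EVERY set `T` of at most `X ^ (1 - 2/k - κ)` real numbers the inequality of `H_k(1/k)` holds
at ALL points `t + b/q`, `t` in `T`, `1 ≤ b < q`, for ALL `N ≥ q ^ (1 + 2/k)` and all real `ξ`, for all primes `q` of
such strings.

Method: the starting result `AlmostAllPrimeModuli` (with dyadic `N`) bounds the number of exceptional primes; the
Maynard-Tao theorem relative to a modulus which is a small power of `X`, in the form that it avoids arbitrary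
exceptional sets of size `X ^ (1 - η)` (`Q84/MB/E1-E4`), gives the strings.
-/

set_option autoImplicit false

open scoped Classical

namespace Pool.Agent.Results.MP_3b0be2_nt.StringsOfPrimeModuli

open Finset Filter Polynomial

/-- `e(f(n)/q + ξ n)` -/
noncomputable def ph (f : ℤ[X]) (q : ℕ) (ξ : ℝ) (n : ℕ) : ℂ :=
  Complex.exp (2 * (Real.pi : ℂ) * Complex.I * ((((f.eval (n : ℤ) : ℤ) : ℝ) / (q : ℝ) + ξ * (n : ℝ) : ℝ) : ℂ))

/-- the bound for all polynomials of degree at most `k` which are not linear modulo `q` -/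
def Mont (k : ℕ) (η ε : ℝ) (a : ℕ → ℂ) (q : ℕ) : Prop :=
  ∀ f : ℤ[X], f.natDegree ≤ k → (∃ i, 2 ≤ i ∧ ¬ (q : ℤ) ∣ f.coeff i) → ∀ N : ℕ, (q : ℝ) ^ (1 + 2 * η) ≤ N →
    ∀ (ξ : ℝ) (u v : ℕ), v ≤ N → ‖∑ n ∈ Ioc u v, a n * ph f q ξ n‖ ≤ (N : ℝ) ^ (1 + ε) / (q : ℝ) ^ η

/-- the reduction of `f` modulo `q` and linear polynomials -/
noncomputable def red (k q : ℕ) (f : ℤ[X]) : ℤ[X] := ∑ i ∈ Icc 2 k, C (f.coeff i % q) * X ^ i

theorem coeff_red (k q : ℕ) (f : ℤ[X]) (j : ℕ) :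
    (red k q f).coeff j = if 2 ≤ j ∧ j ≤ k then f.coeff j % q else 0 := by
  unfold red
  rw [finsetSum_coeff]
  simp only [coeff_C_mul, coeff_X_pow, mul_ite, mul_one, mul_zero]
  rw [sum_ite_eq]
  simp only [mem_Icc]

theorem natDegree_red (k q : ℕ) (f : ℤ[X]) : (red k q f).natDegree ≤ k := by
  rw [natDegree_le_iff_coeff_eq_zero]
  intro j hj
  rw [coeff_red, if_neg (by omega)]

theorem eval_red (k q : ℕ) (hk : 2 ≤ k) (f : ℤ[X]) (hf : f.natDegree ≤ k) (n : ℤ) :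
    ∃ z : ℤ, f.eval n = (red k q f).eval n + f.coeff 1 * n + f.coeff 0 + q * z := by
  refine ⟨∑ i ∈ Icc 2 k, (f.coeff i / q) * n ^ i, ?_⟩
  have h1 : f.eval n = ∑ i ∈ range (k + 1), f.coeff i * n ^ i := eval_eq_sum_range' (by omega) n
  have h2 : range (k + 1) = insert 0 (insert 1 (Icc 2 k)) := by
    ext i
    simp only [mem_range, mem_insert, mem_Icc]
    omega
  rw [h1, h2, sum_insert (by simp), sum_insert (by simp)]
  unfold red
  rw [eval_finsetSum, mul_sum]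
  have h3 : ∑ i ∈ Icc 2 k, f.coeff i * n ^ i = ∑ i ∈ Icc 2 k, eval n (C (f.coeff i % q) * X ^ i) +
      ∑ i ∈ Icc 2 k, (q : ℤ) * (f.coeff i / q * n ^ i) := by
    rw [← sum_add_distrib]
    apply sum_congr rfl
    intro i _
    rw [eval_mul, eval_C, eval_pow, eval_X]
    have := Int.emod_add_mul_ediv (f.coeff i) q
    calc f.coeff i * n ^ i = (f.coeff i % q + q * (f.coeff i / q)) * n ^ i := by rw [this]
      _ = _ := by ring
  rw [h3]
  ring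

theorem norm_red (k q : ℕ) (hq : 0 < q) (hk : 2 ≤ k) (f : ℤ[X]) (hf : f.natDegree ≤ k) (a : ℕ → ℂ) (ξ : ℝ) (u v : ℕ) :
    ‖∑ n ∈ Ioc u v, a n * ph (red k q f) q (ξ + f.coeff 1 / q) n‖ = ‖∑ n ∈ Ioc u v, a n * ph f q ξ n‖ := by
  obtain ⟨w, hw⟩ : ∃ w : ℂ, w = Complex.exp (2 * (Real.pi : ℂ) * Complex.I * ((f.coeff 0 / q : ℝ) : ℂ)) := ⟨_, rfl⟩
  have hw1 : ‖w‖ = 1 := by
    rw [hw, show 2 * (Real.pi : ℂ) * Complex.I * ((f.coeff 0 / q : ℝ) : ℂ) =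
      ((2 * Real.pi * (f.coeff 0 / q) : ℝ) : ℂ) * Complex.I by push_cast; ring, Complex.norm_exp_ofReal_mul_I]
  have hq' : (q : ℝ) ≠ 0 := by exact_mod_cast hq.ne'
  have h : ∀ n, ph f q ξ n = w * ph (red k q f) q (ξ + f.coeff 1 / q) n := by
    intro n
    obtain ⟨z, hz⟩ := eval_red k q hk f hf (n : ℤ)
    rw [hw]
    unfold ph
    rw [hz, ← Complex.exp_add, Complex.exp_eq_exp_iff_exists_int]
    refine ⟨z, ?_⟩
    have hqc : (q : ℂ) ≠ 0 := by exact_mod_cast hq.ne'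
    push_cast
    field_simp
    ring
  have h2 : ∑ n ∈ Ioc u v, a n * ph f q ξ n = w * ∑ n ∈ Ioc u v, a n * ph (red k q f) q (ξ + f.coeff 1 / q) n := by
    rw [mul_sum]
    apply sum_congr rfl
    intro n _
    rw [h n]
    ring
  rw [h2, norm_mul, hw1, one_mul]

/-- at most `C (2Q) ^ (2η)` primes `q` in `(Q, 2Q]` are exceptional for a given coefficient sequence -/
theorem count (k : ℕ) (hk : 2 ≤ k) (η : ℝ) (hη0 : 0 ≤ η) (hη : η ≤ 1 / 4) (ε : ℝ) (hε : 0 < ε) :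
    ∃ C : ℝ, 0 < C ∧ ∃ Q₀ : ℕ, ∀ Q : ℕ, Q₀ ≤ Q → ∀ a : ℕ → ℂ, (∀ n, ‖a n‖ ≤ 1) →
      (((Ioc Q (2 * Q)).filter fun q => q.Prime ∧ ¬ Mont k η ε a q).card : ℝ) ≤ C * (2 * (Q : ℝ)) ^ (2 * η) := by
  obtain ⟨N₀, hN₀⟩ := AlmostAllPrimeModuli.result.2.1 k hk η hη0 hη (ε / 2) (by positivity)
  -- the geometric series
  obtain ⟨x, hx⟩ : ∃ x, x = (2 : ℝ) ^ (-ε) := ⟨_, rfl⟩
  have hx0 : 0 < x := by rw [hx]; positivity
  have hx1 : x < 1 := by rw [hx]; exact Real.rpow_lt_one_of_one_lt_of_neg (by norm_num) (by linarith)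
  have hsum : Summable fun j : ℕ => x ^ j := summable_geometric_of_lt_one hx0.le hx1
  have hev := (tendsto_rpow_atTop (by positivity : (0 : ℝ) < ε / 2)).eventually_ge_atTop ((8 : ℝ) ^ (1 + ε / 2))
  obtain ⟨N₁, hN₁⟩ := eventually_atTop.1 hev
  have h0 : 0 ≤ ∑' j : ℕ, x ^ j := tsum_nonneg (fun j => by positivity)
  refine ⟨2 * ∑' j : ℕ, x ^ j + 1, by linarith,
    max N₀ (max ⌈N₁⌉₊ 1), fun Q hQ a ha => ?_⟩
  have hQ0 : N₀ ≤ Q := (le_max_left _ _).trans hQ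
  have hQ1 : N₁ ≤ Q := (Nat.le_ceil _).trans (by exact_mod_cast ((le_max_left _ _).trans (le_max_right _ _)).trans hQ)
  have hQ2 : 1 ≤ Q := ((le_max_right _ _).trans (le_max_right _ _)).trans hQ
  obtain ⟨P, hP⟩ : ∃ P, P = (Ioc Q (2 * Q)).filter fun q => q.Prime ∧ ¬ Mont k η ε a q := ⟨_, rfl⟩
  rw [← hP]
  -- the exceptional pairs at the dyadic levels
  have hbad : ∀ q ∈ P, ∃ (j : ℕ) (g : ℤ[X]) (ξ : ℝ) (u v : ℕ), N₀ ≤ 2 ^ j ∧ (2 * (Q : ℝ)) ^ (1 + 2 * η) ≤ (2 : ℝ) ^ j ∧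
      g ≠ 0 ∧ g.natDegree ≤ k ∧ g.coeff 0 = 0 ∧ g.coeff 1 = 0 ∧ (∀ i, 0 ≤ g.coeff i ∧ g.coeff i < q) ∧
      v ≤ 2 ^ j ∧ ((2 ^ j : ℕ) : ℝ) ^ (1 + ε / 2) / (q : ℝ) ^ η < ‖∑ n ∈ Ioc u v, a n * ph g q ξ n‖ := by
    intro q hq
    rw [hP, mem_filter, mem_Ioc] at hq
    obtain ⟨⟨hQq, hqQ⟩, hqp, hm⟩ := hq
    unfold Mont at hm
    push Not at hm
    obtain ⟨f, hf, ⟨i, hi2, hi⟩, N, hN, ξ, u, v, hvN, hlt⟩ := hm
    have hq0 : 0 < q := hqp.pos
    have hqr : (1 : ℝ) ≤ q := by exact_mod_cast hqp.one_lt.le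
    have hqN : (q : ℝ) ≤ N := by
      refine le_trans ?_ hN
      calc (q : ℝ) = (q : ℝ) ^ (1 : ℝ) := (Real.rpow_one _).symm
        _ ≤ (q : ℝ) ^ (1 + 2 * η) := Real.rpow_le_rpow_of_exponent_le hqr (by linarith)
    have hQr : (Q : ℝ) < q := by exact_mod_cast hQq
    have hN1 : N₁ ≤ (N : ℝ) := by linarith
    have hN0 : 0 < N := by
      have : (0 : ℝ) < N := by linarith
      exact_mod_cast this
    obtain ⟨j, hj⟩ : ∃ j, j = Nat.clog 2 (4 * N) := ⟨_, rfl⟩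
    have hj1 : 4 * N ≤ 2 ^ j := by rw [hj]; exact Nat.le_pow_clog (by norm_num) _
    have hj2 : 2 ^ j < 8 * N := by
      have h1 : 2 ^ (Nat.clog 2 (4 * N)).pred < 4 * N := Nat.pow_pred_clog_lt_self (by norm_num) (by omega)
      have h2 : 1 ≤ j := by
        by_contra hc
        have : j = 0 := by omega
        rw [this] at hj1
        omega
      rw [← hj] at h1
      have h3 : j = j.pred + 1 := by
        rw [Nat.pred_eq_sub_one]
        omega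
      rw [h3, pow_succ]
      omega
    refine ⟨j, red k q f, ξ + f.coeff 1 / q, u, v, ?_, ?_, ?_, natDegree_red _ _ _, ?_, ?_, ?_, ?_, ?_⟩
    · have : Q ≤ N := by exact_mod_cast (hQr.le.trans hqN)
      omega
    · calc (2 * (Q : ℝ)) ^ (1 + 2 * η) ≤ (2 * q) ^ (1 + 2 * η) :=
            Real.rpow_le_rpow (by positivity) (by linarith) (by linarith)
        _ = 2 ^ (1 + 2 * η) * (q : ℝ) ^ (1 + 2 * η) := Real.mul_rpow (by norm_num) (by linarith)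
        _ ≤ 4 * N := by
            apply mul_le_mul _ hN (by positivity) (by norm_num)
            calc (2 : ℝ) ^ (1 + 2 * η) ≤ 2 ^ (2 : ℝ) := Real.rpow_le_rpow_of_exponent_le (by norm_num) (by linarith)
              _ = 4 := by norm_num
        _ ≤ (2 : ℝ) ^ j := by exact_mod_cast hj1
    · intro h0
      have h1 := coeff_red k q f i
      have hik : i ≤ k := by
        by_contra hc
        apply hi
        rw [coeff_eq_zero_of_natDegree_lt (by omega)]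
        exact dvd_zero _
      rw [h0, coeff_zero, if_pos ⟨hi2, hik⟩] at h1
      exact hi (Int.dvd_of_emod_eq_zero h1.symm)
    · rw [coeff_red, if_neg (by omega)]
    · rw [coeff_red, if_neg (by omega)]
    · intro i
      rw [coeff_red]
      split_ifs
      · exact ⟨Int.emod_nonneg _ (by exact_mod_cast hq0.ne'), Int.emod_lt_of_pos _ (by exact_mod_cast hq0)⟩
      · exact ⟨le_rfl, by exact_mod_cast hq0⟩
    · omega
    · rw [norm_red k q hq0 hk f hf]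
      refine lt_of_le_of_lt ?_ hlt
      apply div_le_div_of_nonneg_right _ (by positivity)
      have hNr : (0 : ℝ) < N := by exact_mod_cast hN0
      calc ((2 ^ j : ℕ) : ℝ) ^ (1 + ε / 2) ≤ (8 * (N : ℝ)) ^ (1 + ε / 2) :=
            Real.rpow_le_rpow (by positivity) (by exact_mod_cast hj2.le) (by linarith)
        _ = 8 ^ (1 + ε / 2) * (N : ℝ) ^ (1 + ε / 2) := Real.mul_rpow (by norm_num) hNr.le
        _ ≤ (N : ℝ) ^ (ε / 2) * (N : ℝ) ^ (1 + ε / 2) :=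
            mul_le_mul_of_nonneg_right (hN₁ _ hN1) (by positivity)
        _ = (N : ℝ) ^ (1 + ε) := by
            rw [← Real.rpow_add hNr]
            congr 1
            ring
  choose! j g ξ u v hj0 hjQ hg0 hgk hg1 hg2 hg3 hvj hlt using hbad
  -- the primes at one level
  have hlev : ∀ i : ℕ, ((P.filter fun q => j q = i).card : ℝ) ≤ 2 * (2 * (Q : ℝ)) ^ (2 * η) * x ^ i := by
    intro i
    rcases (P.filter fun q => j q = i).eq_empty_or_nonempty with h | ⟨q₀, hq₀⟩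
    · rw [h, card_empty]
      push_cast
      positivity
    rw [mem_filter] at hq₀
    have hi1 : N₀ ≤ 2 ^ i := by rw [← hq₀.2]; exact hj0 _ hq₀.1
    have hi2 : (2 * (Q : ℝ)) ^ (1 + 2 * η) ≤ ((2 ^ i : ℕ) : ℝ) := by
      rw [← hq₀.2]
      push_cast
      exact hjQ _ hq₀.1
    have h1 := hN₀ (2 ^ i) hi1 Q hi2 a ha ((P.filter fun q => j q = i).image fun q => (q, g q)) (by
      intro s hs
      rw [mem_image] at hs
      obtain ⟨q, hq, rfl⟩ := hs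
      rw [mem_filter] at hq
      have hq' := hq.1
      rw [hP, mem_filter, mem_Ioc] at hq'
      exact ⟨hq'.2.1, hq'.1.1, hq'.1.2, hg0 q hq.1, hgk q hq.1, hg1 q hq.1, hg2 q hq.1, hg3 q hq.1⟩) (by
      intro s hs
      rw [mem_image] at hs
      obtain ⟨q, hq, rfl⟩ := hs
      rw [mem_filter] at hq
      refine ⟨ξ q, u q, v q, ?_, ?_⟩
      · rw [← hq.2]; exact hvj q hq.1
      · have := hlt q hq.1
        rw [hq.2] at this
        exact this)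
    rw [card_image_of_injective _ (fun q q' h => (Prod.mk.inj h).1)] at h1
    refine h1.trans (le_of_eq ?_)
    rw [hx]
    have h2 : ((2 ^ i : ℕ) : ℝ) ^ (2 * (ε / 2)) = ((2 : ℝ) ^ ε) ^ i := by
      push_cast
      rw [← Real.rpow_natCast, ← Real.rpow_mul (by norm_num), ← Real.rpow_natCast, ← Real.rpow_mul (by norm_num)]
      congr 1
      ring
    rw [h2, Real.rpow_neg (by norm_num), inv_pow, div_eq_mul_inv]
  have hsplit : P.card = ∑ i ∈ P.image j, (P.filter fun q => j q = i).card :=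
    card_eq_sum_card_image j P
  rw [hsplit]
  push_cast
  have hpos : (0 : ℝ) ≤ (2 * (Q : ℝ)) ^ (2 * η) := by positivity
  calc ∑ i ∈ P.image j, ((P.filter fun q => j q = i).card : ℝ)
      ≤ ∑ i ∈ P.image j, 2 * (2 * (Q : ℝ)) ^ (2 * η) * x ^ i := sum_le_sum fun i _ => hlev i
    _ = 2 * (2 * (Q : ℝ)) ^ (2 * η) * ∑ i ∈ P.image j, x ^ i := by rw [mul_sum]
    _ ≤ 2 * (2 * (Q : ℝ)) ^ (2 * η) * ∑' i : ℕ, x ^ i := by
        apply mul_le_mul_of_nonneg_left _ (by positivity)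
        exact hsum.sum_le_tsum _ (fun i _ => by positivity)
    _ ≤ (2 * ∑' j : ℕ, x ^ j + 1) * (2 * (Q : ℝ)) ^ (2 * η) := by nlinarith

/-- the bound for all coefficient sequences of a set -/
def AllMont (k : ℕ) (η ε : ℝ) (A : Finset (ℕ → ℂ)) (q : ℕ) : Prop := ∀ a ∈ A, Mont k η ε a q

/-- the inequality of `H_k(1/k)` at all points `t + b/q`, `t` in `T`, `1 ≤ b < q`, for all `N ≥ q ^ (1 + 2/k)` and all
real `ξ` -/
def AllPoints (k : ℕ) (ε : ℝ) (T : Finset ℝ) (q : ℕ) : Prop :=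
  ∀ t ∈ T, ∀ b : ℕ, 1 ≤ b → b < q → ∀ N : ℕ, (q : ℝ) ^ (1 + 2 / (k : ℝ)) ≤ N → ∀ ξ : ℝ,
    ‖∑ n ∈ Icc 1 N, Complex.exp (2 * (Real.pi : ℂ) * Complex.I *
      (((t + (b : ℝ) / (q : ℝ)) * (n : ℝ) ^ k + ξ * (n : ℝ) : ℝ) : ℂ))‖ ≤
      (N : ℝ) ^ (1 + ε) * (1 / (q : ℝ) + 1 / (N : ℝ) + (q : ℝ) / (N : ℝ) ^ k) ^ (1 / (k : ℝ))

/-- `e(t n ^ k)` -/
noncomputable def tw (k : ℕ) (t : ℝ) (n : ℕ) : ℂ :=
  Complex.exp (2 * (Real.pi : ℂ) * Complex.I * ((t * (n : ℝ) ^ k : ℝ) : ℂ))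

theorem norm_tw (k : ℕ) (t : ℝ) (n : ℕ) : ‖tw k t n‖ ≤ 1 := by
  unfold tw
  rw [show 2 * (Real.pi : ℂ) * Complex.I * ((t * (n : ℝ) ^ k : ℝ) : ℂ) =
      ((2 * Real.pi * (t * (n : ℝ) ^ k) : ℝ) : ℂ) * Complex.I by push_cast; ring, Complex.norm_exp_ofReal_mul_I]

theorem allPoints_of (k : ℕ) (hk : 4 ≤ k) (ε : ℝ) (T : Finset ℝ) (q : ℕ) (hq : q.Prime)
    (h : AllMont k (1 / (k : ℝ)) ε (T.image (tw k)) q) : AllPoints k ε T q := by
  intro t ht b hb1 hbq N hN ξ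
  have hm := h (tw k t) (mem_image_of_mem _ ht) (C (b : ℤ) * X ^ k) (natDegree_C_mul_X_pow_le _ _) ⟨k, by omega, by
    rw [coeff_C_mul, coeff_X_pow, if_pos rfl, mul_one]
    intro hd
    have := Nat.le_of_dvd (by omega) (Int.natCast_dvd_natCast.1 hd)
    omega⟩ N (by
      rw [show 1 + 2 * (1 / (k : ℝ)) = 1 + 2 / (k : ℝ) by ring]
      exact hN) ξ 0 N le_rfl
  have hq0 : (0 : ℝ) < q := by exact_mod_cast hq.pos
  have hN0 : (0 : ℝ) ≤ N := Nat.cast_nonneg _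
  have e1 : ∑ n ∈ Icc 1 N, Complex.exp (2 * (Real.pi : ℂ) * Complex.I *
      (((t + (b : ℝ) / (q : ℝ)) * (n : ℝ) ^ k + ξ * (n : ℝ) : ℝ) : ℂ)) =
      ∑ n ∈ Ioc 0 N, tw k t n * ph (C (b : ℤ) * X ^ k) q ξ n := by
    apply sum_congr (by ext n; simp only [mem_Icc, mem_Ioc]; omega)
    intro n _
    unfold tw ph
    rw [← Complex.exp_add]
    congr 1
    rw [eval_mul, eval_C, eval_pow, eval_X]
    push_cast
    ring
  rw [e1]
  refine hm.trans ?_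
  rw [div_eq_mul_inv]
  apply mul_le_mul_of_nonneg_left _ (by positivity)
  rw [← Real.inv_rpow hq0.le]
  apply Real.rpow_le_rpow (by positivity) _ (by positivity)
  have h1 : (0 : ℝ) ≤ 1 / N := by positivity
  have h2 : (0 : ℝ) ≤ (q : ℝ) / (N : ℝ) ^ k := by positivity
  rw [inv_eq_one_div]
  linarith

theorem core (k : ℕ) (hk : 2 ≤ k) (η : ℝ) (hη0 : 0 ≤ η) (hη : η ≤ 1 / 4) (ε : ℝ) (hε : 0 < ε) (κ : ℝ) (hκ : 0 < κ)
    (m : ℕ) : ∃ c : ℝ, 0 < c ∧ ∀ Z : ℕ, ∃ D : ℕ, ∃ X₀ : ℝ, ∀ X : ℝ, X₀ ≤ X →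
    ∃ S : Finset ℕ, (∀ l ∈ S, l.Prime ∧ Z < l) ∧ (S.card : ℝ) ≤ (Real.log X) ^ (49 / 50 : ℝ) ∧
    ∀ s : ℕ → ℤ, (∀ l, s l = 1 ∨ s l = -1) → ∀ A : Finset (ℕ → ℂ), (∀ a ∈ A, ∀ n, ‖a n‖ ≤ 1) →
      (A.card : ℝ) ≤ X ^ (1 - 2 * η - κ) →
      X ^ (1 - κ) ≤ (((Icc 1 ⌊3 * X⌋₊).filter fun r : ℕ => X < r ∧
        m ≤ ((Icc r (r + D)).filter Nat.Prime).card ∧
        ∀ q ∈ Icc r (r + D), q.Prime → AllMont k η ε A q ∧
          ∀ l : ℕ, l.Prime → l ≠ 2 → (l : ℝ) ≤ c * Real.log X → l ∉ S → jacobiSym q l = s l).card : ℝ) := by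
  obtain ⟨C₁, hC₁, Q₀, hQ₀⟩ := count k hk η hη0 hη ε hε
  obtain ⟨c, hc, hmain⟩ := Pool.Agent.Q84.MB.sym_strings m (κ / 2) (by positivity)
  refine ⟨c, hc, fun Z => ?_⟩
  obtain ⟨D, hD⟩ := hmain Z
  obtain ⟨X₀, hX₀⟩ := eventually_atTop.1 ((hD.and ((tendsto_rpow_atTop
    (by positivity : (0 : ℝ) < κ / 2)).eventually_ge_atTop (3 * C₁ * 8))).and (eventually_ge_atTop ((Q₀ : ℝ) + 1)))
  refine ⟨D, X₀, fun X hX => ?_⟩
  obtain ⟨⟨⟨S, hS1, hS2, hS3⟩, hXD⟩, hX1⟩ := hX₀ X hX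
  have hQ0r : (0 : ℝ) ≤ Q₀ := Nat.cast_nonneg _
  have hX0 : 0 < X := by linarith
  have hX1' : 1 ≤ X := by linarith
  refine ⟨S, hS1, hS2, fun s hs A hA1 hA => ?_⟩
  obtain ⟨Q, hQ⟩ : ∃ Q, Q = ⌊X⌋₊ := ⟨_, rfl⟩
  have hQX : (Q : ℝ) ≤ X := by rw [hQ]; exact Nat.floor_le hX0.le
  have hXQ : X < Q + 1 := by rw [hQ]; exact Nat.lt_floor_add_one X
  have hQQ : Q₀ ≤ Q := by
    rw [hQ]
    exact Nat.le_floor (by linarith)
  have hQ1 : 1 ≤ Q := by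
    rw [hQ]
    exact Nat.le_floor (by push_cast; linarith)
  obtain ⟨B, hB⟩ : ∃ B : ℕ → (ℕ → ℂ) → Finset ℕ, B = fun R a =>
      (Ioc R (2 * R)).filter fun q => q.Prime ∧ ¬ Mont k η ε a q := ⟨_, rfl⟩
  have h8 : ∀ y : ℝ, 0 ≤ y → y ≤ 8 * X → y ^ (2 * η) ≤ 8 * X ^ (2 * η) := by
    intro y hy0 hy
    calc y ^ (2 * η) ≤ (8 * X) ^ (2 * η) := Real.rpow_le_rpow hy0 hy (by linarith)
      _ = 8 ^ (2 * η) * X ^ (2 * η) := Real.mul_rpow (by norm_num) hX0.le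
      _ ≤ 8 * X ^ (2 * η) := by
          apply mul_le_mul_of_nonneg_right _ (by positivity)
          calc (8 : ℝ) ^ (2 * η) ≤ 8 ^ (1 : ℝ) := Real.rpow_le_rpow_of_exponent_le (by norm_num) (by linarith)
            _ = 8 := Real.rpow_one _
  have hBc : ∀ R : ℕ, Q ≤ R → R ≤ 4 * Q → ∀ a ∈ A, ((B R a).card : ℝ) ≤ C₁ * 8 * X ^ (2 * η) := by
    intro R hR1 hR2 a ha
    rw [hB]
    refine (hQ₀ R (hQQ.trans hR1) a (hA1 a ha)).trans ?_
    rw [mul_assoc]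
    apply mul_le_mul_of_nonneg_left _ hC₁.le
    apply h8 _ (by positivity)
    have : (R : ℝ) ≤ 4 * Q := by exact_mod_cast hR2
    linarith
  have hP : (((Icc 1 ⌊4 * X⌋₊).filter fun q : ℕ => q.Prime ∧ X < q ∧ ¬ AllMont k η ε A q).card : ℝ) ≤
      X ^ (1 - κ / 2) := by
    have hsub : ((Icc 1 ⌊4 * X⌋₊).filter fun q : ℕ => q.Prime ∧ X < q ∧ ¬ AllMont k η ε A q) ⊆
        A.biUnion fun a => (B Q a ∪ B (2 * Q) a) ∪ B (4 * Q) a := by
      intro q hq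
      rw [mem_filter, mem_Icc] at hq
      obtain ⟨⟨_, hq4⟩, hqp, hXq, hg⟩ := hq
      have hq4' : (q : ℝ) ≤ 4 * X := (Nat.le_floor_iff (by linarith)).1 hq4
      have hQq : Q < q := by
        have : (Q : ℝ) < q := by linarith
        exact_mod_cast this
      have hqQ : q ≤ 8 * Q := by
        have : (q : ℝ) < ((4 * Q + 4 : ℕ) : ℝ) := by push_cast; linarith
        have h' : q < 4 * Q + 4 := by exact_mod_cast this
        omega
      unfold AllMont at hg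
      push Not at hg
      obtain ⟨a, ha, hga⟩ := hg
      rw [mem_biUnion]
      refine ⟨a, ha, ?_⟩
      rw [hB, mem_union, mem_union, mem_filter, mem_filter, mem_filter, mem_Ioc, mem_Ioc, mem_Ioc]
      rcases le_or_gt q (2 * Q) with h1 | h1
      · exact Or.inl (Or.inl ⟨⟨hQq, h1⟩, hqp, hga⟩)
      rcases le_or_gt q (4 * Q) with h2 | h2
      · exact Or.inl (Or.inr ⟨⟨h1, by omega⟩, hqp, hga⟩)
      · exact Or.inr ⟨⟨h2, by omega⟩, hqp, hga⟩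
    have h1 : (((Icc 1 ⌊4 * X⌋₊).filter fun q : ℕ => q.Prime ∧ X < q ∧ ¬ AllMont k η ε A q).card : ℝ) ≤
        A.card * (3 * (C₁ * 8 * X ^ (2 * η))) := by
      refine (Nat.cast_le.2 ((card_le_card hsub).trans card_biUnion_le)).trans ?_
      rw [Nat.cast_sum]
      have h2 : ∀ a ∈ A, ((((B Q a ∪ B (2 * Q) a) ∪ B (4 * Q) a).card : ℕ) : ℝ) ≤ 3 * (C₁ * 8 * X ^ (2 * η)) := by
        intro a ha
        have h3 := hBc Q le_rfl (by omega) a ha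
        have h4 := hBc (2 * Q) (by omega) (by omega) a ha
        have h5 := hBc (4 * Q) (by omega) (by omega) a ha
        have h6 : ((((B Q a ∪ B (2 * Q) a) ∪ B (4 * Q) a).card : ℕ) : ℝ) ≤
            (B Q a).card + (B (2 * Q) a).card + (B (4 * Q) a).card := by
          have := (card_union_le (B Q a ∪ B (2 * Q) a) (B (4 * Q) a)).trans
            (Nat.add_le_add_right (card_union_le _ _) _)
          exact_mod_cast this
        linarith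
      refine (sum_le_sum h2).trans (le_of_eq ?_)
      rw [sum_const, nsmul_eq_mul]
    refine h1.trans ?_
    calc (A.card : ℝ) * (3 * (C₁ * 8 * X ^ (2 * η))) ≤ X ^ (1 - 2 * η - κ) * (3 * (C₁ * 8 * X ^ (2 * η))) := by
          apply mul_le_mul_of_nonneg_right hA (by positivity)
      _ = (3 * C₁ * 8) * X ^ (1 - κ) := by
          rw [show (1 : ℝ) - κ = (1 - 2 * η - κ) + 2 * η by ring, Real.rpow_add hX0]
          ring
      _ ≤ X ^ (κ / 2) * X ^ (1 - κ) := mul_le_mul_of_nonneg_right hXD (by positivity)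
      _ = X ^ (1 - κ / 2) := by
          rw [← Real.rpow_add hX0]
          congr 1
          ring
  have h1 := hS3 s hs (AllMont k η ε A) hP
  have h2 : X ^ (1 - κ) ≤ X ^ (1 - κ / 2) := Real.rpow_le_rpow_of_exponent_le hX1' (by linarith)
  refine h2.trans (h1.trans ?_)
  rw [Nat.cast_le]
  apply card_le_card
  intro n hn
  rw [mem_filter] at hn ⊢
  obtain ⟨h3, h4, h5⟩ := hn
  exact ⟨h3, h4, h5.1, h5.2⟩

theorem result :
    (∀ k : ℕ, 2 ≤ k → ∀ η : ℝ, 0 ≤ η → η ≤ 1 / 4 → ∀ ε : ℝ, 0 < ε → ∀ κ : ℝ, 0 < κ → ∀ m : ℕ,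
      ∃ c : ℝ, 0 < c ∧ ∀ Z : ℕ, ∃ D : ℕ, ∃ X₀ : ℝ, ∀ X : ℝ, X₀ ≤ X →
      ∃ S : Finset ℕ, (∀ l ∈ S, l.Prime ∧ Z < l) ∧ (S.card : ℝ) ≤ (Real.log X) ^ (49 / 50 : ℝ) ∧
      ∀ s : ℕ → ℤ, (∀ l, s l = 1 ∨ s l = -1) → ∀ A : Finset (ℕ → ℂ), (∀ a ∈ A, ∀ n, ‖a n‖ ≤ 1) →
        (A.card : ℝ) ≤ X ^ (1 - 2 * η - κ) →
        X ^ (1 - κ) ≤ (((Icc 1 ⌊3 * X⌋₊).filter fun r : ℕ => X < r ∧
          m ≤ ((Icc r (r + D)).filter Nat.Prime).card ∧
          ∀ q ∈ Icc r (r + D), q.Prime → AllMont k η ε A q ∧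
            ∀ l : ℕ, l.Prime → l ≠ 2 → (l : ℝ) ≤ c * Real.log X → l ∉ S → jacobiSym q l = s l).card : ℝ)) ∧
    (∀ k : ℕ, 4 ≤ k → ∀ ε : ℝ, 0 < ε → ∀ κ : ℝ, 0 < κ → ∀ m : ℕ,
      ∃ c : ℝ, 0 < c ∧ ∀ Z : ℕ, ∃ D : ℕ, ∃ X₀ : ℝ, ∀ X : ℝ, X₀ ≤ X →
      ∃ S : Finset ℕ, (∀ l ∈ S, l.Prime ∧ Z < l) ∧ (S.card : ℝ) ≤ (Real.log X) ^ (49 / 50 : ℝ) ∧
      ∀ s : ℕ → ℤ, (∀ l, s l = 1 ∨ s l = -1) → ∀ T : Finset ℝ,
        (T.card : ℝ) ≤ X ^ (1 - 2 / (k : ℝ) - κ) →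
        X ^ (1 - κ) ≤ (((Icc 1 ⌊3 * X⌋₊).filter fun r : ℕ => X < r ∧
          m ≤ ((Icc r (r + D)).filter Nat.Prime).card ∧
          ∀ q ∈ Icc r (r + D), q.Prime → AllPoints k ε T q ∧
            ∀ l : ℕ, l.Prime → l ≠ 2 → (l : ℝ) ≤ c * Real.log X → l ∉ S → jacobiSym q l = s l).card : ℝ)) := by
  refine ⟨core, fun k hk ε hε κ hκ m => ?_⟩
  have hkr : (4 : ℝ) ≤ k := by exact_mod_cast hk
  obtain ⟨c, hc, h⟩ := core k (by omega) (1 / (k : ℝ)) (by positivity)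
    (by rw [div_le_div_iff₀ (by linarith) (by norm_num)]; linarith) ε hε κ hκ m
  refine ⟨c, hc, fun Z => ?_⟩
  obtain ⟨D, X₀, h⟩ := h Z
  refine ⟨D, X₀, fun X hX => ?_⟩
  obtain ⟨S, hS1, hS2, h⟩ := h X hX
  refine ⟨S, hS1, hS2, fun s hs T hT => ?_⟩
  have h1 := h s hs (T.image (tw k)) (by
    intro a ha n
    rw [mem_image] at ha
    obtain ⟨t, _, rfl⟩ := ha
    exact norm_tw k t n) (by
    rw [show 1 - 2 * (1 / (k : ℝ)) - κ = 1 - 2 / (k : ℝ) - κ by ring]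
    exact le_trans (by exact_mod_cast card_image_le) hT)
  refine h1.trans ?_
  rw [Nat.cast_le]
  apply card_le_card
  intro r hr
  rw [mem_filter] at hr ⊢
  obtain ⟨h3, h4, h5, h6⟩ := hr
  exact ⟨h3, h4, h5, fun q hq hqp => ⟨allPoints_of k hk ε T q hqp (h6 q hq hqp).1, (h6 q hq hqp).2⟩⟩

end Pool.Agent.Results.MP_3b0be2_nt.StringsOfPrimeModuli
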